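import Mathlib

/-!
# Geodesic words of the first Grigorchuk group
-/

set_option autoImplicit false

namespace Pool.Agent.X265.Geo

/-- the four generators -/
inductive Let : Type
  | a | b | c | d
  deriving DecidableEq, Fintype

instance : Inhabited Let := ⟨Let.a⟩

open Let

/-- the action of the generators on finite words over `{0, 1}` (`false` is `0`, `true` is `1`) -/
def act : Let → List Bool → List Bool
  | _, [] => []
  | a, x :: w => (!x) :: w
  | b, false :: w => false :: act a w
  | b, true :: w => true :: act c w
  | c, false :: w => false :: act a w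
  | c, true :: w => true :: act d w
  | d, false :: w => false :: w
  | d, true :: w => true :: act b w

/-- the action of words -/
def val (w : List Let) (v : List Bool) : List Bool := w.foldr act v

/-- geodesic words: no shorter word acts in the same way -/
def Geodesic (w : List Let) : Prop :=
  ∀ w' : List Let, (∀ v, val w' v = val w v) → w.length ≤ w'.length

/-- the geodesic words of length `n` -/
def geod (n : ℕ) : Set (List Let) := {w | w.length = n ∧ Geodesic w}

@[simp] theorem val_cons (s : Let) (w : List Let) (v : List Bool) : val (s :: w) v = act s (val w v) := rfl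
@[simp] theorem val_nil (v : List Bool) : val [] v = v := rfl
@[simp] theorem act_nil (s : Let) : act s [] = [] := by cases s <;> rfl
@[simp] theorem act_a (x : Bool) (w : List Bool) : act a (x :: w) = (!x) :: w := rfl
@[simp] theorem act_b0 (w : List Bool) : act b (false :: w) = false :: act a w := rfl
@[simp] theorem act_b1 (w : List Bool) : act b (true :: w) = true :: act c w := rfl
@[simp] theorem act_c0 (w : List Bool) : act c (false :: w) = false :: act a w := rfl
@[simp] theorem act_c1 (w : List Bool) : act c (true :: w) = true :: act d w := rfl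
@[simp] theorem act_d0 (w : List Bool) : act d (false :: w) = false :: w := rfl
@[simp] theorem act_d1 (w : List Bool) : act d (true :: w) = true :: act b w := rfl

theorem aa (v : List Bool) : act a (act a v) = v := by
  cases v <;> simp

theorem rel (v : List Bool) : act b (act b v) = v ∧ act c (act c v) = v ∧ act d (act d v) = v ∧
    act b (act c v) = act d v ∧ act c (act b v) = act d v ∧ act c (act d v) = act b v ∧
    act d (act c v) = act b v ∧ act b (act d v) = act c v ∧ act d (act b v) = act c v := by
  induction v with
  | nil => simp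
  | cons x v ih =>
    obtain ⟨h1, h2, h3, h4, h5, h6, h7, h8, h9⟩ := ih
    cases x <;> simp [aa, h1, h2, h3, h4, h5, h6, h7, h8, h9]

theorem adada (v : List Bool) : val [a, d, a, d, a] v = val [d, a, d] v := by
  cases v with
  | nil => rfl
  | cons x v => cases x <;> simp

/-! ## the lower bound -/

/-- the position on the line -/
def pos : List Bool → ℕ
  | [] => 0
  | x :: v => 2 * pos v + (if pos v % 2 = 0 then (if x then 0 else 1) else (if x then 1 else 0))

theorem pos_false (v : List Bool) : pos (false :: v) = 2 * pos v + (1 - pos v % 2) := by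
  rcases Nat.mod_two_eq_zero_or_one (pos v) with h | h <;> simp [pos, h]

theorem pos_true (v : List Bool) : pos (true :: v) = 2 * pos v + pos v % 2 := by
  rcases Nat.mod_two_eq_zero_or_one (pos v) with h | h <;> simp [pos, h]

theorem pos_a (v : List Bool) (hv : v ≠ []) : (pos v % 2 = 0 ∧ pos (act a v) = pos v + 1) ∨
    (pos v % 2 = 1 ∧ pos (act a v) + 1 = pos v) := by
  cases v with
  | nil => exact absurd rfl hv
  | cons x v =>
    cases x
    · rw [act_a, Bool.not_false, pos_true, pos_false]; omega
    · rw [act_a, Bool.not_true, pos_true, pos_false]; omega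

theorem pos_x (v : List Bool) : ∀ s : Let, s ≠ a → (pos (act s v) = pos v) ∨
    (pos v % 2 = 1 ∧ pos (act s v) = pos v + 1) ∨ (pos v % 2 = 0 ∧ pos (act s v) + 1 = pos v) := by
  induction v with
  | nil => intro s _; left; rw [act_nil]
  | cons x v ih =>
    intro s hs
    have ha : pos (act a v) = pos v ∨ (pos v % 2 = 0 ∧ pos (act a v) = pos v + 1) ∨
        (pos v % 2 = 1 ∧ pos (act a v) + 1 = pos v) := by
      by_cases hv : v = []
      · left; rw [hv]; rfl
      · right; exact pos_a v hv
    have hb := ih b (by decide)
    have hc := ih c (by decide)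
    have hd := ih d (by decide)
    cases s with
    | a => exact absurd rfl hs
    | b =>
      cases x
      · rw [act_b0, pos_false, pos_false]; omega
      · rw [act_b1, pos_true, pos_true]; omega
    | c =>
      cases x
      · rw [act_c0, pos_false, pos_false]; omega
      · rw [act_c1, pos_true, pos_true]; omega
    | d =>
      cases x
      · left; rfl
      · rw [act_d1, pos_true, pos_true]; omega

theorem pos_le (s : Let) (v : List Bool) : pos (act s v) ≤ pos v + 1 := by
  by_cases hs : s = a
  · subst hs
    by_cases hv : v = []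
    · rw [hv]; simp [pos]
    · have := pos_a v hv
      omega
  · have := pos_x v s hs
    omega

theorem pos_val (w : List Let) (v : List Bool) : pos (val w v) ≤ w.length + pos v := by
  induction w with
  | nil => simp
  | cons s w ih =>
    have := pos_le s (val w v)
    rw [val_cons, List.length_cons]
    omega

theorem len_act (s : Let) (v : List Bool) : (act s v).length = v.length := by
  induction v generalizing s with
  | nil => rw [act_nil]
  | cons x v ih => cases s <;> cases x <;> simp [ih]

theorem len_val (w : List Let) (v : List Bool) : (val w v).length = v.length := by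
  induction w with
  | nil => rfl
  | cons s w ih => rw [val_cons, len_act, ih]

theorem two (v : List Bool) (h : pos v % 2 = 1) (h2 : pos v + 1 < 2 ^ v.length) :
    ∃ s t : Let, s ≠ t ∧ pos (act s v) = pos v + 1 ∧ pos (act t v) = pos v + 1 := by
  suffices hh : ∃ s t : Let, s ≠ t ∧ s ≠ a ∧ t ≠ a ∧ pos (act s v) = pos v + 1 ∧ pos (act t v) = pos v + 1 by
    obtain ⟨s, t, h1, _, _, h3, h4⟩ := hh
    exact ⟨s, t, h1, h3, h4⟩
  induction v with
  | nil => simp [pos] at h
  | cons x v ih =>
    rcases Nat.mod_two_eq_zero_or_one (pos v) with hv | hv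
    · cases x
      · have hne : v ≠ [] := by
          rintro rfl
          simp [pos] at h2
        have h3 : pos (act a v) = pos v + 1 := by
          have := pos_a v hne
          omega
        refine ⟨b, c, by decide, by decide, by decide, ?_, ?_⟩
        · rw [act_b0, pos_false, pos_false, h3]; omega
        · rw [act_c0, pos_false, pos_false, h3]; omega
      · exfalso
        rw [pos_true] at h
        omega
    · cases x
      · exfalso
        rw [pos_false] at h
        omega
      · have h3 : pos v + 1 < 2 ^ v.length := by
          rw [pos_true, List.length_cons, pow_succ] at h2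
          omega
        obtain ⟨s, t, hst, hs, ht, h5, h6⟩ := ih hv h3
        have h7 : ∀ s : Let, s ≠ a → ∃ s' : Let, s' ≠ a ∧ act s' (true :: v) = true :: act s v ∧
            (s = b → s' = d) ∧ (s = c → s' = b) ∧ (s = d → s' = c) := by
          intro s hs
          cases s with
          | a => exact absurd rfl hs
          | b => exact ⟨d, by decide, rfl, by decide, by decide, by decide⟩
          | c => exact ⟨b, by decide, rfl, by decide, by decide, by decide⟩
          | d => exact ⟨c, by decide, rfl, by decide, by decide, by decide⟩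
        obtain ⟨s', hs', hs2, hs3, hs4, hs5⟩ := h7 s hs
        obtain ⟨t', ht', ht2, ht3, ht4, ht5⟩ := h7 t ht
        have hne : s' ≠ t' := by
          cases s <;> cases t <;> first
            | exact absurd rfl hst
            | exact absurd rfl hs
            | exact absurd rfl ht
            | (simp at hs3 hs4 hs5 ht3 ht4 ht5; subst_vars; decide)
        refine ⟨s', t', hne, hs', ht', ?_, ?_⟩
        · rw [hs2, pos_true, pos_true, h5]; omega
        · rw [ht2, pos_true, pos_true, h6]; omega

/-- many straight words -/
theorem straight (k : ℕ) : ∀ n, n < 2 ^ k → ∃ F : Finset (List Let), F.card = 2 ^ (n / 2) ∧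
    ∀ w ∈ F, w.length = n ∧ pos (val w (List.replicate k true)) = n := by
  classical
  have h0 : pos (List.replicate k true) = 0 := by
    induction k with
    | zero => rfl
    | succ k ih => rw [List.replicate_succ, pos_true, ih]
  intro n
  induction n with
  | zero =>
    intro _
    refine ⟨{[]}, by simp, ?_⟩
    intro w hw
    rw [Finset.mem_singleton.1 hw]
    exact ⟨rfl, h0⟩
  | succ n ih =>
    intro hn
    obtain ⟨F, hF, hFw⟩ := ih (by omega)
    have hinj : ∀ s : Let, Function.Injective (fun w : List Let => s :: w) := fun s w w' h => (List.cons.inj h).2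
    rcases Nat.mod_two_eq_zero_or_one n with he | he
    · refine ⟨F.image (fun w => a :: w), ?_, ?_⟩
      · rw [Finset.card_image_of_injective _ (hinj a), hF]
        congr 1
        omega
      · intro x hx
        obtain ⟨w, hw, rfl⟩ := Finset.mem_image.1 hx
        obtain ⟨h1, h2⟩ := hFw w hw
        refine ⟨by rw [List.length_cons, h1], ?_⟩
        rw [val_cons]
        have hne : val w (List.replicate k true) ≠ [] := by
          intro hh
          have h3 := len_val w (List.replicate k true)
          rw [hh, List.length_replicate] at h3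
          have h4 : k = 0 := h3.symm
          rw [h4] at hn
          simp at hn
        have := pos_a _ hne
        omega
    · have hst : ∀ w ∈ F, ∃ s t : Let, s ≠ t ∧ pos (act s (val w (List.replicate k true))) = n + 1 ∧
          pos (act t (val w (List.replicate k true))) = n + 1 := by
        intro w hw
        obtain ⟨h1, h2⟩ := hFw w hw
        have h3 := two (val w (List.replicate k true)) (by rw [h2]; exact he)
          (by rw [h2, len_val, List.length_replicate]; exact hn)
        rwa [h2] at h3
      choose! s t hst1 hst2 hst3 using hst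
      refine ⟨F.image (fun w => s w :: w) ∪ F.image (fun w => t w :: w), ?_, ?_⟩
      · have hi : ∀ s : List Let → Let, Function.Injective (fun w : List Let => s w :: w) :=
          fun s w w' h => (List.cons.inj h).2
        rw [Finset.card_union_of_disjoint, Finset.card_image_of_injective _ (hi s),
          Finset.card_image_of_injective _ (hi t), hF]
        · have h4 : (n + 1) / 2 = n / 2 + 1 := by omega
          rw [h4, pow_succ]
          ring
        · rw [Finset.disjoint_left]
          intro x hx hx'
          obtain ⟨w, hw, rfl⟩ := Finset.mem_image.1 hx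
          obtain ⟨w', hw', h5⟩ := Finset.mem_image.1 hx'
          obtain ⟨h6, h7⟩ := List.cons.inj h5
          subst h7
          exact hst1 w' hw' h6.symm
      · intro x hx
        rcases Finset.mem_union.1 hx with hx | hx
        · obtain ⟨w, hw, rfl⟩ := Finset.mem_image.1 hx
          exact ⟨by rw [List.length_cons, (hFw w hw).1], hst2 w hw⟩
        · obtain ⟨w, hw, rfl⟩ := Finset.mem_image.1 hx
          exact ⟨by rw [List.length_cons, (hFw w hw).1], hst3 w hw⟩

theorem geodesic_of_pos (k : ℕ) (w : List Let) (h : pos (val w (List.replicate k true)) = w.length) :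
    Geodesic w := by
  have h0 : pos (List.replicate k true) = 0 := by
    clear h
    induction k with
    | zero => rfl
    | succ k ih => rw [List.replicate_succ, pos_true, ih]
  intro w' hw'
  have h1 := pos_val w' (List.replicate k true)
  rw [hw', h, h0] at h1
  omega

theorem finite_len (n : ℕ) : {w : List Let | w.length = n}.Finite := List.finite_length_eq Let n

/-- **the lower bound** -/
theorem lower (n : ℕ) : 2 ^ (n / 2) ≤ (geod n).ncard := by
  obtain ⟨F, hF, hFw⟩ := straight n n Nat.lt_two_pow_self
  have hfin : (geod n).Finite := (finite_len n).subset (fun w hw => hw.1)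
  rw [← hF, ← Set.ncard_coe_finset]
  refine Set.ncard_le_ncard ?_ hfin
  intro w hw
  obtain ⟨h1, h2⟩ := hFw w hw
  exact ⟨h1, geodesic_of_pos n w (by rw [h2, h1])⟩

/-! ## the upper bound -/

/-- shortening -/
theorem not_geodesic {w w' : List Let} (h : ∀ v, val w' v = val w v) (hl : w'.length < w.length) :
    ¬ Geodesic w := fun hg => absurd (hg w' h) (by omega)

theorem val_append (w w' : List Let) (v : List Bool) : val (w ++ w') v = val w (val w' v) := by
  simp [val]

theorem tail_geodesic {s : Let} {w : List Let} (h : Geodesic (s :: w)) : Geodesic w := by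
  intro w' hw'
  have h1 := h (s :: w') (fun v => by rw [val_cons, val_cons, hw'])
  simpa using h1

theorem alt {s t : Let} {w : List Let} (h : Geodesic (s :: t :: w)) : (s = a ↔ t ≠ a) := by
  by_contra hh
  have key : ∃ w' : List Let, (∀ v, val w' v = val (s :: t :: w) v) ∧ w'.length < (s :: t :: w).length := by
    have hr := fun v => rel (val w v)
    cases s <;> cases t
    · exact ⟨w, fun v => (aa _).symm, by simp⟩
    · exact absurd (by decide) hh
    · exact absurd (by decide) hh
    · exact absurd (by decide) hh
    · exact absurd (by decide) hh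
    · exact ⟨w, fun v => (hr v).1.symm, by simp⟩
    · exact ⟨d :: w, fun v => (hr v).2.2.2.1.symm, by simp⟩
    · exact ⟨c :: w, fun v => (hr v).2.2.2.2.2.2.2.1.symm, by simp⟩
    · exact absurd (by decide) hh
    · exact ⟨d :: w, fun v => (hr v).2.2.2.2.1.symm, by simp⟩
    · exact ⟨w, fun v => (hr v).2.1.symm, by simp⟩
    · exact ⟨b :: w, fun v => (hr v).2.2.2.2.2.1.symm, by simp⟩
    · exact absurd (by decide) hh
    · exact ⟨c :: w, fun v => (hr v).2.2.2.2.2.2.2.2.symm, by simp⟩
    · exact ⟨b :: w, fun v => (hr v).2.2.2.2.2.2.1.symm, by simp⟩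
    · exact ⟨w, fun v => (hr v).2.2.1.symm, by simp⟩
  obtain ⟨w', h1, h2⟩ := key
  exact not_geodesic h1 h2 h

theorem no_adada (w : List Let) : ¬ Geodesic (a :: d :: a :: d :: a :: w) := by
  refine not_geodesic (w' := d :: a :: d :: w) (fun v => ?_) (by simp)
  exact (adada (val w v)).symm

/-- the geodesic words of length `n` starting with `a` -/
def ga (n : ℕ) : Set (List Let) := {w | w.length = n ∧ Geodesic w ∧ ∃ w', w = a :: w'}

theorem ga_fin (n : ℕ) : (ga n).Finite := (finite_len n).subset (fun w hw => hw.1)

/-- the comparison sequence -/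
def u : ℕ → ℕ
  | 0 => 1
  | 1 => 3
  | n + 2 => 2 * (u (n + 1) + u n)

theorem ga_step (n : ℕ) : (ga (n + 5)).ncard ≤ 2 * (ga (n + 3)).ncard + 2 * (ga (n + 1)).ncard := by
  have hsub : ga (n + 5) ⊆ ((fun w => a :: b :: w) '' ga (n + 3) ∪ (fun w => a :: c :: w) '' ga (n + 3)) ∪
      ((fun w => a :: d :: a :: b :: w) '' ga (n + 1) ∪ (fun w => a :: d :: a :: c :: w) '' ga (n + 1)) := by
    rintro w ⟨hl, hg, w', rfl⟩
    match w', hl, hg with
    | s :: t :: x :: y :: w', hl, hg =>
      have h1 := alt hg
      have h2 := alt (tail_geodesic hg)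
      have h3 := alt (tail_geodesic (tail_geodesic hg))
      have h4 := alt (tail_geodesic (tail_geodesic (tail_geodesic hg)))
      have hs : s ≠ a := h1.1 rfl
      have ht : t = a := by
        by_contra hh
        exact hs (h2.2 hh)
      have hx : x ≠ a := h3.1 ht
      have hy : y = a := by
        by_contra hh
        exact hx (h4.2 hh)
      subst ht hy
      simp only [List.length_cons] at hl
      have hg2 : Geodesic (a :: x :: a :: w') := tail_geodesic (tail_geodesic hg)
      have hg4 : Geodesic (a :: w') := tail_geodesic (tail_geodesic hg2)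
      cases s with
      | a => exact absurd rfl hs
      | b => exact Or.inl (Or.inl ⟨a :: x :: a :: w', ⟨by simp only [List.length_cons]; omega, hg2, _, rfl⟩, rfl⟩)
      | c => exact Or.inl (Or.inr ⟨a :: x :: a :: w', ⟨by simp only [List.length_cons]; omega, hg2, _, rfl⟩, rfl⟩)
      | d =>
        cases x with
        | a => exact absurd rfl hx
        | b => exact Or.inr (Or.inl ⟨a :: w', ⟨by simp only [List.length_cons]; omega, hg4, _, rfl⟩, rfl⟩)
        | c => exact Or.inr (Or.inr ⟨a :: w', ⟨by simp only [List.length_cons]; omega, hg4, _, rfl⟩, rfl⟩)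
        | d => exact absurd hg (no_adada w')
  have hf3 := ga_fin (n + 3)
  have hf1 := ga_fin (n + 1)
  refine (Set.ncard_le_ncard hsub ?_).trans ?_
  · exact ((hf3.image _).union (hf3.image _)).union ((hf1.image _).union (hf1.image _))
  · refine (Set.ncard_union_le _ _).trans ?_
    have e1 := Set.ncard_union_le ((fun w => a :: b :: w) '' ga (n + 3)) ((fun w => a :: c :: w) '' ga (n + 3))
    have e2 := Set.ncard_union_le ((fun w => a :: d :: a :: b :: w) '' ga (n + 1))
      ((fun w => a :: d :: a :: c :: w) '' ga (n + 1))
    have e3 := Set.ncard_image_le (f := fun w => a :: b :: w) hf3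
    have e4 := Set.ncard_image_le (f := fun w => a :: c :: w) hf3
    have e5 := Set.ncard_image_le (f := fun w => a :: d :: a :: b :: w) hf1
    have e6 := Set.ncard_image_le (f := fun w => a :: d :: a :: c :: w) hf1
    omega

theorem ga_zero : (ga 0).ncard = 0 := by
  have h1 : ga 0 = ∅ := by
    ext w
    constructor
    · rintro ⟨hl, _, w', rfl⟩
      simp at hl
    · exact fun h => absurd h (Set.notMem_empty w)
  rw [h1, Set.ncard_empty]

/-- words starting with `a` of length `n + 2` -/
theorem ga_step2 (n : ℕ) : (ga (n + 3)).ncard ≤ 3 * (ga (n + 1)).ncard := by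
  have hsub : ga (n + 3) ⊆ ((fun w => a :: b :: w) '' ga (n + 1) ∪ (fun w => a :: c :: w) '' ga (n + 1)) ∪
      ((fun w => a :: d :: w) '' ga (n + 1)) := by
    rintro w ⟨hl, hg, w', rfl⟩
    match w', hl, hg with
    | s :: t :: w', hl, hg =>
      have h1 := alt hg
      have h2 := alt (tail_geodesic hg)
      have hs : s ≠ a := h1.1 rfl
      have ht : t = a := by
        by_contra hh
        exact hs (h2.2 hh)
      subst ht
      simp only [List.length_cons] at hl
      have hg2 : Geodesic (a :: w') := tail_geodesic (tail_geodesic hg)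
      cases s with
      | a => exact absurd rfl hs
      | b => exact Or.inl (Or.inl ⟨a :: w', ⟨by simp only [List.length_cons]; omega, hg2, _, rfl⟩, rfl⟩)
      | c => exact Or.inl (Or.inr ⟨a :: w', ⟨by simp only [List.length_cons]; omega, hg2, _, rfl⟩, rfl⟩)
      | d => exact Or.inr ⟨a :: w', ⟨by simp only [List.length_cons]; omega, hg2, _, rfl⟩, rfl⟩
  have hf1 := ga_fin (n + 1)
  refine (Set.ncard_le_ncard hsub ?_).trans ?_
  · exact ((hf1.image _).union (hf1.image _)).union (hf1.image _)
  · refine (Set.ncard_union_le _ _).trans ?_
    have e2 := Set.ncard_union_le ((fun w => a :: b :: w) '' ga (n + 1)) ((fun w => a :: c :: w) '' ga (n + 1))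
    have e3 := Set.ncard_image_le (f := fun w => a :: b :: w) hf1
    have e4 := Set.ncard_image_le (f := fun w => a :: c :: w) hf1
    have e5 := Set.ncard_image_le (f := fun w => a :: d :: w) hf1
    omega

theorem ga_one : (ga 1).ncard ≤ 1 := by
  have h1 : ga 1 ⊆ {[a]} := by
    rintro w ⟨hl, _, w', rfl⟩
    simp only [List.length_cons, Nat.add_eq_right, List.length_eq_zero_iff] at hl
    rw [hl]
    rfl
  refine (Set.ncard_le_ncard h1 (Set.finite_singleton _)).trans ?_
  rw [Set.ncard_singleton]

theorem ga_two : (ga 2).ncard ≤ 3 := by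
  have h1 : ga 2 ⊆ {[a, b], [a, c], [a, d]} := by
    rintro w ⟨hl, hg, w', rfl⟩
    match w', hl, hg with
    | [s], hl, hg =>
      have h1 := (alt hg).1 rfl
      cases s with
      | a => exact absurd rfl h1
      | b => simp
      | c => simp
      | d => simp
  refine (Set.ncard_le_ncard h1 (Set.toFinite _)).trans ?_
  refine (Set.ncard_insert_le _ _).trans ?_
  have := Set.ncard_insert_le [a, c] {[a, d]}
  rw [Set.ncard_singleton] at this
  omega

theorem ga_le (n : ℕ) : (ga n).ncard ≤ 3 * u (n / 2) := by
  induction n using Nat.strong_induction_on with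
  | _ n ih =>
  match n with
  | 0 => rw [ga_zero]; omega
  | 1 => have := ga_one; simp [u]; omega
  | 2 => have := ga_two; simp [u]; omega
  | 3 => have := ga_step2 0; have := ga_one; simp [u] at *; omega
  | 4 => have := ga_step2 1; have := ga_two; simp [u] at *; omega
  | n + 5 =>
    have h1 := ga_step n
    have h2 := ih (n + 3) (by omega)
    have h3 := ih (n + 1) (by omega)
    have e1 : (n + 5) / 2 = (n + 1) / 2 + 2 := by omega
    have e2 : (n + 3) / 2 = (n + 1) / 2 + 1 := by omega
    rw [e2] at h2
    rw [e1]
    show _ ≤ 3 * (2 * (u ((n + 1) / 2 + 1) + u ((n + 1) / 2)))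
    omega

theorem u_mono (n : ℕ) : u n ≤ u (n + 1) := by
  induction n using Nat.strong_induction_on with
  | _ n ih =>
  match n with
  | 0 => decide
  | n + 1 =>
    show u (n + 1) ≤ 2 * (u (n + 1) + u n)
    omega

/-- **the upper bound** -/
theorem upper (n : ℕ) : (geod n).ncard ≤ 12 * u (n / 2) := by
  match n with
  | 0 =>
    have h1 : geod 0 ⊆ {[]} := by
      rintro w ⟨hl, _⟩
      exact List.length_eq_zero_iff.1 hl
    have h2 := Set.ncard_le_ncard h1 (Set.finite_singleton _)
    rw [Set.ncard_singleton] at h2
    simp [u]; omega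
  | 1 =>
    have hsub : geod 1 ⊆ {[a], [b], [c], [d]} := by
      rintro w ⟨hl, _⟩
      match w, hl with
      | [s], _ => cases s <;> simp
    have h2 := Set.ncard_le_ncard hsub (Set.toFinite _)
    have h3 : ({[a], [b], [c], [d]} : Set (List Let)).ncard ≤ 4 := by
      have e1 := Set.ncard_insert_le [a] {[b], [c], [d]}
      have e2 := Set.ncard_insert_le [b] {[c], [d]}
      have e3 := Set.ncard_insert_le [c] {[d]}
      rw [Set.ncard_singleton] at e3
      omega
    simp [u]; omega
  | n + 2 =>
    have hsub : geod (n + 2) ⊆ ga (n + 2) ∪ (((fun w => b :: w) '' ga (n + 1) ∪ (fun w => c :: w) '' ga (n + 1)) ∪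
        ((fun w => d :: w) '' ga (n + 1))) := by
      rintro w ⟨hl, hg⟩
      match w, hl, hg with
      | s :: t :: w, hl, hg =>
        have h1 := alt hg
        simp only [List.length_cons] at hl
        by_cases hs : s = a
        · subst hs
          exact Or.inl ⟨by simp only [List.length_cons]; omega, hg, _, rfl⟩
        · have ht : t = a := by
            by_contra hh
            exact hs (h1.2 hh)
          subst ht
          have hg2 := tail_geodesic hg
          right
          cases s with
          | a => exact absurd rfl hs
          | b => exact Or.inl (Or.inl ⟨a :: w, ⟨by simp only [List.length_cons]; omega, hg2, _, rfl⟩, rfl⟩)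
          | c => exact Or.inl (Or.inr ⟨a :: w, ⟨by simp only [List.length_cons]; omega, hg2, _, rfl⟩, rfl⟩)
          | d => exact Or.inr ⟨a :: w, ⟨by simp only [List.length_cons]; omega, hg2, _, rfl⟩, rfl⟩
    have hf1 := ga_fin (n + 1)
    have hf2 := ga_fin (n + 2)
    have h0 := Set.ncard_le_ncard hsub
      (hf2.union (((hf1.image _).union (hf1.image _)).union (hf1.image _)))
    have e0 := Set.ncard_union_le (ga (n + 2)) (((fun w => b :: w) '' ga (n + 1) ∪
      (fun w => c :: w) '' ga (n + 1)) ∪ ((fun w => d :: w) '' ga (n + 1)))
    have e1 := Set.ncard_union_le ((fun w => b :: w) '' ga (n + 1) ∪ (fun w => c :: w) '' ga (n + 1))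
      ((fun w => d :: w) '' ga (n + 1))
    have e2 := Set.ncard_union_le ((fun w => b :: w) '' ga (n + 1)) ((fun w => c :: w) '' ga (n + 1))
    have e3 := Set.ncard_image_le (f := fun w => b :: w) hf1
    have e4 := Set.ncard_image_le (f := fun w => c :: w) hf1
    have e5 := Set.ncard_image_le (f := fun w => d :: w) hf1
    have g1 := ga_le (n + 1)
    have g2 := ga_le (n + 2)
    have g3 : u ((n + 1) / 2) ≤ u ((n + 2) / 2) := by
      rcases Nat.mod_two_eq_zero_or_one n with h | h
      · have : (n + 2) / 2 = (n + 1) / 2 + 1 := by omega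
        rw [this]
        exact u_mono _
      · have : (n + 2) / 2 = (n + 1) / 2 := by omega
        rw [this]
    omega

theorem u_le (n : ℕ) : (u n : ℝ) ≤ 2 * (1 + Real.sqrt 3) ^ n := by
  have h3 : Real.sqrt 3 * Real.sqrt 3 = 3 := Real.mul_self_sqrt (by norm_num)
  have h4 : (1 : ℝ) ≤ Real.sqrt 3 := by
    rw [show (1 : ℝ) = Real.sqrt 1 from Real.sqrt_one.symm]
    exact Real.sqrt_le_sqrt (by norm_num)
  have key : ∀ n, (u n : ℝ) ≤ 2 * (1 + Real.sqrt 3) ^ n ∧ (u (n + 1) : ℝ) ≤ 2 * (1 + Real.sqrt 3) ^ (n + 1) := by
    intro n
    induction n with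
    | zero =>
      constructor
      · simp [u]
      · simp [u]
        nlinarith
    | succ n ih =>
      refine ⟨ih.2, ?_⟩
      have h5 : (u (n + 2) : ℝ) = 2 * (u (n + 1) + u n) := by
        show ((2 * (u (n + 1) + u n) : ℕ) : ℝ) = _
        push_cast
        ring
      have h6 : (1 + Real.sqrt 3) ^ (n + 2) = 2 * ((1 + Real.sqrt 3) ^ (n + 1) + (1 + Real.sqrt 3) ^ n) := by
        have h7 : (1 + Real.sqrt 3) ^ 2 = 2 * (1 + Real.sqrt 3) + 2 := by nlinarith
        calc (1 + Real.sqrt 3) ^ (n + 2) = (1 + Real.sqrt 3) ^ n * (1 + Real.sqrt 3) ^ 2 := by ring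
          _ = _ := by rw [h7]; ring
      rw [h5, h6]
      linarith [ih.1, ih.2]
  exact (key n).1

end Pool.Agent.X265.Geo
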