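import Mathlib

/-!
# Geodesic words of the Grigorchuk groups `G_ω`
-/

set_option autoImplicit false

namespace Pool.Agent.X265.Geo.Om

/-- the letters `a` and `t 0`, `t 1`, `t 2` -/
inductive Let : Type
  | a : Let
  | t : Fin 3 → Let
  deriving DecidableEq, Fintype

instance : Inhabited Let := ⟨Let.a⟩

open Let

/-- change of the first letter -/
def flip : List Bool → List Bool
  | [] => []
  | x :: v => (!x) :: v

/-- the action of `t i` -/
def tact (i : Fin 3) : (ℕ → Fin 3) → List Bool → List Bool
  | _, [] => []
  | ω, false :: v => false :: (if ω 0 = i then v else flip v)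
  | ω, true :: v => true :: tact i (fun n => ω (n + 1)) v

/-- the action of the letters -/
def act (ω : ℕ → Fin 3) : Let → List Bool → List Bool
  | a, v => flip v
  | t i, v => tact i ω v

/-- the action of words -/
def val (ω : ℕ → Fin 3) (w : List Let) (v : List Bool) : List Bool := w.foldr (act ω) v

/-- geodesic words over the generating set `S` -/
def Geodesic (ω : ℕ → Fin 3) (S : Set Let) (w : List Let) : Prop :=
  (∀ s ∈ w, s ∈ S) ∧ ∀ w' : List Let, (∀ s ∈ w', s ∈ S) → (∀ v, val ω w' v = val ω w v) → w.length ≤ w'.length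

/-- the geodesic words of length `n` over `S` -/
def geod (ω : ℕ → Fin 3) (S : Set Let) (n : ℕ) : Set (List Let) := {w | w.length = n ∧ Geodesic ω S w}

/-- the position on the line -/
def pos : List Bool → ℕ
  | [] => 0
  | x :: v => 2 * pos v + (if pos v % 2 = 0 then (if x then 0 else 1) else (if x then 1 else 0))

theorem pos_false (v : List Bool) : pos (false :: v) = 2 * pos v + (1 - pos v % 2) := by
  rcases Nat.mod_two_eq_zero_or_one (pos v) with h | h <;> simp [pos, h]

theorem pos_true (v : List Bool) : pos (true :: v) = 2 * pos v + pos v % 2 := by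
  rcases Nat.mod_two_eq_zero_or_one (pos v) with h | h <;> simp [pos, h]

theorem pos_flip (v : List Bool) (hv : v ≠ []) : (pos v % 2 = 0 ∧ pos (flip v) = pos v + 1) ∨
    (pos v % 2 = 1 ∧ pos (flip v) + 1 = pos v) := by
  cases v with
  | nil => exact absurd rfl hv
  | cons x v =>
    cases x
    · show (_ ∧ pos (true :: v) = _) ∨ (_ ∧ pos (true :: v) + 1 = _)
      rw [pos_true, pos_false]; omega
    · show (_ ∧ pos (false :: v) = _) ∨ (_ ∧ pos (false :: v) + 1 = _)
      rw [pos_true, pos_false]; omega

theorem pos_t (i : Fin 3) (v : List Bool) : ∀ ω : ℕ → Fin 3, (pos (tact i ω v) = pos v) ∨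
    (pos v % 2 = 1 ∧ pos (tact i ω v) = pos v + 1) ∨ (pos v % 2 = 0 ∧ pos (tact i ω v) + 1 = pos v) := by
  induction v with
  | nil => intro ω; left; rfl
  | cons x v ih =>
    intro ω
    cases x
    · have ha : pos (flip v) = pos v ∨ (pos v % 2 = 0 ∧ pos (flip v) = pos v + 1) ∨
          (pos v % 2 = 1 ∧ pos (flip v) + 1 = pos v) := by
        by_cases hv : v = []
        · left; rw [hv]; rfl
        · right; exact pos_flip v hv
      by_cases h : ω 0 = i
      · left
        show pos (false :: (if ω 0 = i then v else flip v)) = _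
        rw [if_pos h]
      · have h1 : tact i ω (false :: v) = false :: flip v := by
          show false :: (if ω 0 = i then v else flip v) = _
          rw [if_neg h]
        rw [h1, pos_false, pos_false]
        omega
    · have h1 : tact i ω (true :: v) = true :: tact i (fun n => ω (n + 1)) v := rfl
      have h2 := ih (fun n => ω (n + 1))
      rw [h1, pos_true, pos_true]
      omega

theorem pos_le (ω : ℕ → Fin 3) (s : Let) (v : List Bool) : pos (act ω s v) ≤ pos v + 1 := by
  cases s with
  | a =>
    show pos (flip v) ≤ _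
    by_cases hv : v = []
    · rw [hv]; simp [pos, flip]
    · have := pos_flip v hv
      omega
  | t i =>
    have := pos_t i v ω
    show pos (tact i ω v) ≤ _
    omega

theorem pos_val (ω : ℕ → Fin 3) (w : List Let) (v : List Bool) : pos (val ω w v) ≤ w.length + pos v := by
  induction w with
  | nil => simp [val]
  | cons s w ih =>
    have h1 := pos_le ω s (val ω w v)
    have h2 : val ω (s :: w) v = act ω s (val ω w v) := rfl
    rw [h2, List.length_cons]
    omega

theorem len_flip (v : List Bool) : (flip v).length = v.length := by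
  cases v <;> rfl

theorem len_t (i : Fin 3) (v : List Bool) : ∀ ω : ℕ → Fin 3, (tact i ω v).length = v.length := by
  induction v with
  | nil => intro ω; rfl
  | cons x v ih =>
    intro ω
    cases x
    · show (false :: (if ω 0 = i then v else flip v)).length = _
      split_ifs
      · rfl
      · simp [len_flip]
    · show (true :: tact i (fun n => ω (n + 1)) v).length = _
      simp [ih]

theorem len_val (ω : ℕ → Fin 3) (w : List Let) (v : List Bool) : (val ω w v).length = v.length := by
  induction w with
  | nil => rfl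
  | cons s w ih =>
    have h2 : val ω (s :: w) v = act ω s (val ω w v) := rfl
    rw [h2]
    cases s with
    | a => exact (len_flip _).trans ih
    | t i => exact (len_t i _ ω).trans ih

/-- at an odd position all letters but one move forward; the exceptional letter is `t (ω j)`, where `j + 1` is the
exponent of two in `pos v + 1` -/
theorem move (v : List Bool) : ∀ (ω : ℕ → Fin 3), pos v % 2 = 1 → pos v + 1 < 2 ^ v.length →
    ∃ j : ℕ, (∃ q, pos v + 1 = 2 ^ (j + 1) * (2 * q + 1)) ∧
      ∀ i, i ≠ ω j → pos (tact i ω v) = pos v + 1 := by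
  induction v with
  | nil => intro ω h; simp [pos] at h
  | cons x v ih =>
    intro ω h h2
    rcases Nat.mod_two_eq_zero_or_one (pos v) with hv | hv
    · cases x
      · have hne : v ≠ [] := by
          rintro rfl
          simp [pos] at h2
        have h3 := pos_flip v hne
        refine ⟨0, ⟨pos v / 2, by rw [pos_false]; omega⟩, ?_⟩
        intro i hi
        have h4 : tact i ω (false :: v) = false :: flip v := by
          show false :: (if ω 0 = i then v else flip v) = _
          rw [if_neg (fun hh => hi hh.symm)]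
        rw [h4, pos_false, pos_false]
        omega
      · exfalso
        rw [pos_true] at h
        omega
    · cases x
      · exfalso
        rw [pos_false] at h
        omega
      · have h3 : pos v + 1 < 2 ^ v.length := by
          rw [pos_true, List.length_cons, pow_succ] at h2
          omega
        obtain ⟨j, ⟨q, hq⟩, hj⟩ := ih (fun n => ω (n + 1)) hv h3
        refine ⟨j + 1, ⟨q, ?_⟩, ?_⟩
        · rw [pos_true, hv, pow_succ, mul_comm (2 ^ (j + 1)) 2, mul_assoc, ← hq]
          ring
        · intro i hi
          have h4 := hj i hi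
          have h5 : tact i ω (true :: v) = true :: tact i (fun n => ω (n + 1)) v := rfl
          rw [h5, pos_true, pos_true, h4]
          omega

theorem exp_unique {j j' q q' : ℕ} (h : 2 ^ (j + 1) * (2 * q + 1) = 2 ^ (j' + 1) * (2 * q' + 1)) : j = j' := by
  rcases lt_trichotomy j j' with hl | hl | hl
  · exfalso
    obtain ⟨d, rfl⟩ := Nat.exists_eq_add_of_lt hl
    have h1 : 2 ^ (j + d + 1 + 1) = 2 ^ (j + 1) * (2 * 2 ^ d) := by ring
    rw [h1, mul_assoc] at h
    have h2 := Nat.eq_of_mul_eq_mul_left (by positivity) h
    have h3 : 2 * q + 1 = 2 * (2 ^ d * (2 * q' + 1)) := by rw [h2]; ring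
    omega
  · exact hl
  · exfalso
    obtain ⟨d, rfl⟩ := Nat.exists_eq_add_of_lt hl
    have h1 : 2 ^ (j' + d + 1 + 1) = 2 ^ (j' + 1) * (2 * 2 ^ d) := by ring
    rw [h1, mul_assoc] at h
    have h2 := Nat.eq_of_mul_eq_mul_left (by positivity) h
    have h3 : 2 * q' + 1 = 2 * (2 ^ d * (2 * q + 1)) := by rw [← h2]; ring
    omega

/-- the number of doubled steps -/
def cnt (j0 n : ℕ) : ℕ := (n + 2 ^ (j0 + 1)) / 2 ^ (j0 + 2)

theorem cnt_step (j0 n : ℕ) : cnt j0 (n + 1) = cnt j0 n ∨
    (cnt j0 (n + 1) = cnt j0 n + 1 ∧ ∃ q, n + 1 = 2 ^ (j0 + 1) * (2 * q + 1)) := by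
  unfold cnt
  have h0 : (2 : ℕ) ^ (j0 + 2) = 2 * 2 ^ (j0 + 1) := by ring
  have hp : 0 < 2 ^ (j0 + 1) := by positivity
  rw [h0]
  set p := 2 ^ (j0 + 1) with hpd
  have h1 : (n + 1 + p) = (n + p) + 1 := by ring
  rw [h1, Nat.succ_div]
  split_ifs with hd
  · right
    refine ⟨rfl, ?_⟩
    obtain ⟨q, hq⟩ := hd
    cases q with
    | zero => omega
    | succ q =>
      refine ⟨q, ?_⟩
      have h2 : 2 * p * (q + 1) = p * (2 * q + 1) + p := by ring
      omega
  · left; rfl

theorem pos_rep (k : ℕ) : pos (List.replicate k true) = 0 := by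
  induction k with
  | zero => rfl
  | succ k ih => rw [List.replicate_succ, pos_true, ih]

/-- many straight words -/
theorem straight (ω : ℕ → Fin 3) (S : Set Let) (k0 : Fin 3) (j0 : ℕ) (haS : a ∈ S) (hS : ∀ i, i ≠ k0 → t i ∈ S)
    (hω : ω j0 = k0) (k : ℕ) : ∀ n, n < 2 ^ k → ∃ F : Finset (List Let), F.card = 2 ^ (cnt j0 n) ∧
    ∀ w ∈ F, (∀ s ∈ w, s ∈ S) ∧ w.length = n ∧ pos (val ω w (List.replicate k true)) = n := by
  classical
  have h0 : pos (List.replicate k true) = 0 := pos_rep k
  have hval : ∀ (s : Let) (w : List Let) (v : List Bool), val ω (s :: w) v = act ω s (val ω w v) :=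
    fun _ _ _ => rfl
  intro n
  induction n with
  | zero =>
    intro _
    refine ⟨{[]}, ?_, ?_⟩
    · have h1 : cnt j0 0 = 0 := by
        unfold cnt
        rw [zero_add]
        exact Nat.div_eq_of_lt (Nat.pow_lt_pow_right (by norm_num) (by omega))
      rw [h1]; simp
    intro w hw
    rw [Finset.mem_singleton.1 hw]
    exact ⟨by simp, rfl, h0⟩
  | succ n ih =>
    intro hn
    obtain ⟨F, hF, hFw⟩ := ih (by omega)
    -- one letter moves forward
    have hone : ∀ w ∈ F, ∃ s ∈ S, pos (act ω s (val ω w (List.replicate k true))) = n + 1 := by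
      intro w hw
      obtain ⟨h1, h2, h3⟩ := hFw w hw
      rcases Nat.mod_two_eq_zero_or_one n with he | he
      · refine ⟨a, haS, ?_⟩
        have hne : val ω w (List.replicate k true) ≠ [] := by
          intro hh
          have h3 := len_val ω w (List.replicate k true)
          rw [hh, List.length_replicate] at h3
          have h4 : k = 0 := h3.symm
          rw [h4] at hn
          simp at hn
        have h4 := pos_flip _ hne
        show pos (flip _) = _
        omega
      · obtain ⟨j, hj, h4⟩ := move (val ω w (List.replicate k true)) ω (by rw [h3]; exact he)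
          (by rw [h3, len_val, List.length_replicate]; exact hn)
        obtain ⟨i, hi1, hi2⟩ : ∃ i : Fin 3, i ≠ k0 ∧ i ≠ ω j := by
          have hdec : ∀ k0 x : Fin 3, ∃ i : Fin 3, i ≠ k0 ∧ i ≠ x := by decide
          exact hdec k0 (ω j)
        refine ⟨t i, hS i hi1, ?_⟩
        show pos (tact i ω _) = _
        rw [h4 i hi2, h3]
    rcases cnt_step j0 n with hc | ⟨hc, q, hq⟩
    · choose! s hs1 hs2 using hone
      refine ⟨F.image (fun w => s w :: w), ?_, ?_⟩
      · rw [Finset.card_image_of_injective _ (fun w w' h => (List.cons.inj h).2), hF, hc]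
      · intro x hx
        obtain ⟨w, hw, rfl⟩ := Finset.mem_image.1 hx
        obtain ⟨h1, h2, h3⟩ := hFw w hw
        refine ⟨?_, by rw [List.length_cons, h2], by rw [hval]; exact hs2 w hw⟩
        intro s' hs'
        rcases List.mem_cons.1 hs' with rfl | h
        · exact hs1 w hw
        · exact h1 s' h
    · -- two letters move forward
      have hst : ∀ w ∈ F, ∃ s t : Let, s ∈ S ∧ t ∈ S ∧ s ≠ t ∧
          pos (act ω s (val ω w (List.replicate k true))) = n + 1 ∧
          pos (act ω t (val ω w (List.replicate k true))) = n + 1 := by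
        intro w hw
        obtain ⟨h1, h2, h3⟩ := hFw w hw
        have he : n % 2 = 1 := by
          have h5 : n + 1 = 2 * (2 ^ j0 * (2 * q + 1)) := by rw [hq]; ring
          omega
        obtain ⟨j, ⟨q', hj⟩, h4⟩ := move (val ω w (List.replicate k true)) ω (by rw [h3]; exact he)
          (by rw [h3, len_val, List.length_replicate]; exact hn)
        rw [h3, hq] at hj
        have hjj : j = j0 := (exp_unique hj).symm
        subst hjj
        obtain ⟨i, i', hi1, hi2, hi3⟩ : ∃ i i' : Fin 3, i ≠ k0 ∧ i' ≠ k0 ∧ i ≠ i' := by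
          have hdec : ∀ k0 : Fin 3, ∃ i i' : Fin 3, i ≠ k0 ∧ i' ≠ k0 ∧ i ≠ i' := by decide
          exact hdec k0
        refine ⟨t i, t i', hS i hi1, hS i' hi2, fun hh => hi3 (Let.t.inj hh), ?_, ?_⟩
        · show pos (tact i ω _) = _
          rw [h4 i (by rw [hω]; exact hi1), h3]
        · show pos (tact i' ω _) = _
          rw [h4 i' (by rw [hω]; exact hi2), h3]
      choose! s t hs ht hst1 hst2 hst3 using hst
      have hi : ∀ s : List Let → Let, Function.Injective (fun w : List Let => s w :: w) :=
        fun s w w' h => (List.cons.inj h).2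
      refine ⟨F.image (fun w => s w :: w) ∪ F.image (fun w => t w :: w), ?_, ?_⟩
      · rw [Finset.card_union_of_disjoint, Finset.card_image_of_injective _ (hi s),
          Finset.card_image_of_injective _ (hi t), hF, hc, pow_succ]
        · ring
        · rw [Finset.disjoint_left]
          intro x hx hx'
          obtain ⟨w, hw, rfl⟩ := Finset.mem_image.1 hx
          obtain ⟨w', hw', h5⟩ := Finset.mem_image.1 hx'
          obtain ⟨h6, h7⟩ := List.cons.inj h5
          subst h7
          exact hst1 w' hw' h6.symm
      · intro x hx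
        rcases Finset.mem_union.1 hx with hx | hx
        · obtain ⟨w, hw, rfl⟩ := Finset.mem_image.1 hx
          obtain ⟨h1, h2, h3⟩ := hFw w hw
          refine ⟨?_, by rw [List.length_cons, h2], by rw [hval]; exact hst2 w hw⟩
          intro s' hs'
          rcases List.mem_cons.1 hs' with rfl | h
          · exact hs w hw
          · exact h1 s' h
        · obtain ⟨w, hw, rfl⟩ := Finset.mem_image.1 hx
          obtain ⟨h1, h2, h3⟩ := hFw w hw
          refine ⟨?_, by rw [List.length_cons, h2], by rw [hval]; exact hst3 w hw⟩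
          intro s' hs'
          rcases List.mem_cons.1 hs' with rfl | h
          · exact ht w hw
          · exact h1 s' h

/-- **the lower bound** -/
theorem lower (ω : ℕ → Fin 3) (S : Set Let) (k0 : Fin 3) (j0 : ℕ) (haS : a ∈ S) (hS : ∀ i, i ≠ k0 → t i ∈ S)
    (hω : ω j0 = k0) (n : ℕ) : 2 ^ (n / 2 ^ (j0 + 2)) ≤ (geod ω S n).ncard := by
  obtain ⟨F, hF, hFw⟩ := straight ω S k0 j0 haS hS hω n n Nat.lt_two_pow_self
  have h0 : pos (List.replicate n true) = 0 := pos_rep n
  have hfin : (geod ω S n).Finite := (List.finite_length_eq Let n).subset (fun w hw => hw.1)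
  have h1 : 2 ^ (n / 2 ^ (j0 + 2)) ≤ F.card := by
    rw [hF]
    exact Nat.pow_le_pow_right (by norm_num) (Nat.div_le_div_right (Nat.le_add_right _ _))
  refine h1.trans ?_
  rw [← Set.ncard_coe_finset]
  refine Set.ncard_le_ncard ?_ hfin
  intro w hw
  obtain ⟨h1, h2, h3⟩ := hFw w hw
  refine ⟨h2, h1, ?_⟩
  intro w' _ hw'
  have h4 := pos_val ω w' (List.replicate n true)
  rw [hw', h3, h0] at h4
  omega

end Pool.Agent.X265.Geo.Om
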